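import Pool.Agent.Y424.SP.Conv
import Pool.Agent.Y424.SX.Final

/-!
# Explicit and asymptotic bounds
-/

set_option autoImplicit false

namespace Pool.Agent.Y424.SP

open Finset Module
open Pool.Agent.Y424.SX
open Pool.Agent.TH360.SR (SliceRankLE Homogeneous tow tow_mono')
open Pool.Agent.TH138.NF (B B_le nat_le_rpow)

theorem tow_eq (k : ℕ) (x : ℝ) : Pool.Agent.TH138.NF.tow k x = tow k x := by
  induction k with
  | zero => rfl
  | succ k ih =>
    show (2 : ℝ) ^ Pool.Agent.TH138.NF.tow k x = 2 ^ tow k x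
    rw [ih]

theorem B_one (b n : ℕ) : B b n 1 ≤ 2 ^ (2 ^ (2 * b + 1) * n) := by
  simp only [B, pow_zero, mul_one, zero_add]
  rw [← pow_succ', ← pow_mul]
  apply Nat.pow_le_pow_right (by norm_num)
  have h1 : 1 ≤ 2 ^ b := Nat.one_le_two_pow
  calc (2 ^ b + 1) * (2 ^ b * n) ≤ (2 ^ b + 2 ^ b) * (2 ^ b * n) := by gcongr
    _ = 2 ^ (2 * b + 1) * n := by ring

theorem NN_le (q b w r M Y : ℕ) (hM : M ≤ 2 ^ Y) (hq : 1 ≤ q) :
    NN q b w r M ≤ 2 ^ ((4 + Y + q * ((q + 2) ^ b * (w + 2)) ^ (r + 1)) *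
      (4 * ((q + 2) ^ b * (w + 2))) ^ (r + 1)) := by
  unfold NN
  rw [pow_mul 2]
  apply Nat.pow_le_pow_left
  have h1 : q ≤ 2 ^ q := Nat.lt_two_pow_self.le
  have hm : 1 ≤ (q + 2) ^ b := Nat.one_le_pow _ _ (by omega)
  have h2 : (w + 1) * (w + 2) ^ r * (q + 2) ^ b ≤ ((q + 2) ^ b * (w + 2)) ^ (r + 1) := by
    rw [mul_pow]
    calc (w + 1) * (w + 2) ^ r * (q + 2) ^ b ≤ (w + 2) * (w + 2) ^ r * (q + 2) ^ b :=
          Nat.mul_le_mul_right _ (Nat.mul_le_mul_right _ (by omega))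
      _ = (q + 2) ^ b * (w + 2) ^ (r + 1) := by ring
      _ ≤ ((q + 2) ^ b) ^ (r + 1) * (w + 2) ^ (r + 1) :=
          Nat.mul_le_mul_right _ (Nat.le_self_pow (by omega) _)
  have h3 : q ^ ((w + 1) * (w + 2) ^ r * (q + 2) ^ b) ≤
      2 ^ (q * ((q + 2) ^ b * (w + 2)) ^ (r + 1)) := by
    calc q ^ ((w + 1) * (w + 2) ^ r * (q + 2) ^ b) ≤
        q ^ (((q + 2) ^ b * (w + 2)) ^ (r + 1)) := Nat.pow_le_pow_right hq h2
      _ ≤ (2 ^ q) ^ (((q + 2) ^ b * (w + 2)) ^ (r + 1)) := Nat.pow_le_pow_left h1 _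
      _ = _ := by rw [← pow_mul]
  calc 12 * M * q ^ ((w + 1) * (w + 2) ^ r * (q + 2) ^ b) ≤
      2 ^ 4 * 2 ^ Y * 2 ^ (q * ((q + 2) ^ b * (w + 2)) ^ (r + 1)) :=
        Nat.mul_le_mul (Nat.mul_le_mul (by norm_num) hM) h3
    _ = _ := by rw [← pow_add, ← pow_add]

/-- Triples, explicit bound. -/
theorem triples (q : ℕ) (hq : 1 ≤ q) : ∃ C : ℕ, ∀ b w n N : ℕ,
    2 ^ (C ^ (b + 1) * (w + 1) ^ 6 * n) ≤ N →
    ∀ (κ : Type) (P : QProtocol κ q 2) (c : Finset ℕ → κ), P.steps ≤ b → P.Width w N →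
      P.Computes N c → ∃ S ⊆ range N, S.card = n ∧ Homogeneous 3 c S := by
  refine ⟨(5 + 8 * q) * 1024 * ((q + 2) ^ 6 * 2 ^ (16 * q + 2)), fun b w n N hN κ P c hb hw hc => ?_⟩
  rcases Nat.eq_zero_or_pos n with rfl | hn
  · refine ⟨∅, by simp, rfl, fun A hA B hB _ _ => ?_⟩
    rw [subset_empty.1 hA, subset_empty.1 hB]
  refine main hq P c hw hc hn (le_trans ?_ hN)
  set b₀ := P.steps with hb₀
  have e0 : (2 : ℕ) ^ (1 + 2) = 8 := by norm_num
  rw [e0]
  set b' := b₀ * (q * 8 + 1) with hb'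
  refine (NN_le q b₀ w 2 _ _ (B_one b' n) hq).trans ?_
  apply Nat.pow_le_pow_right (by norm_num)
  set m := (q + 2) ^ b₀ with hm
  have hm1 : 1 ≤ m := Nat.one_le_pow _ _ (by omega)
  set Z := 2 ^ (2 * b' + 1) with hZ
  have hZ1 : 1 ≤ Z := Nat.one_le_two_pow
  have hw2 : w + 2 ≤ 2 * (w + 1) := by omega
  set W := (w + 1) ^ 3 with hW
  have hW1 : 1 ≤ W := Nat.one_le_pow _ _ (by omega)
  have h1 : (m * (w + 2)) ^ (2 + 1) ≤ 8 * (m ^ 3 * W) := by
    calc (m * (w + 2)) ^ (2 + 1) ≤ (m * (2 * (w + 1))) ^ 3 :=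
          Nat.pow_le_pow_left (Nat.mul_le_mul_left _ hw2) _
      _ = 8 * (m ^ 3 * W) := by rw [hW]; ring
  have h2 : (4 * (m * (w + 2))) ^ (2 + 1) ≤ 512 * (m ^ 3 * W) := by
    calc (4 * (m * (w + 2))) ^ (2 + 1) = 64 * (m * (w + 2)) ^ (2 + 1) := by ring
      _ ≤ 64 * (8 * (m ^ 3 * W)) := Nat.mul_le_mul_left _ h1
      _ = _ := by ring
  have hm3 : 1 ≤ m ^ 3 := Nat.one_le_pow _ _ hm1
  have h3 : 4 + Z * n + q * (m * (w + 2)) ^ (2 + 1) ≤ (5 + 8 * q) * (m ^ 3 * W * Z * n) := by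
    have a1 : 1 ≤ m ^ 3 * W * Z * n := Nat.one_le_iff_ne_zero.2 (by positivity)
    have a2 : Z * n ≤ m ^ 3 * W * Z * n := by
      calc Z * n = 1 * (Z * n) := by ring
        _ ≤ (m ^ 3 * W) * (Z * n) := Nat.mul_le_mul_right _ (Nat.mul_pos hm3 hW1)
        _ = _ := by ring
    have a3 : m ^ 3 * W ≤ m ^ 3 * W * Z * n := by
      calc m ^ 3 * W = m ^ 3 * W * 1 := by ring
        _ ≤ m ^ 3 * W * (Z * n) := Nat.mul_le_mul_left _ (Nat.mul_pos hZ1 hn)
        _ = _ := by ring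
    have a4 : q * (m * (w + 2)) ^ (2 + 1) ≤ q * (8 * (m ^ 3 * W * Z * n)) :=
      Nat.mul_le_mul_left _ (h1.trans (Nat.mul_le_mul_left _ a3))
    have a5 : (5 + 8 * q) * (m ^ 3 * W * Z * n) =
        4 * (m ^ 3 * W * Z * n) + (m ^ 3 * W * Z * n) + q * (8 * (m ^ 3 * W * Z * n)) := by ring
    omega
  calc (4 + Z * n + q * (m * (w + 2)) ^ (2 + 1)) * (4 * (m * (w + 2))) ^ (2 + 1) ≤
      ((5 + 8 * q) * (m ^ 3 * W * Z * n)) * (512 * (m ^ 3 * W)) := Nat.mul_le_mul h3 h2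
    _ = ((5 + 8 * q) * 1024) * ((q + 2) ^ 6 * 2 ^ (16 * q + 2)) ^ b₀ * (w + 1) ^ 6 * n := by
        have e1 : m ^ 6 = ((q + 2) ^ 6) ^ b₀ := by rw [hm, ← pow_mul, ← pow_mul, mul_comm]
        have e2 : Z = 2 * (2 ^ (16 * q + 2)) ^ b₀ := by
          rw [hZ, hb', pow_succ, ← pow_mul]
          have e3 : 2 * (b₀ * (q * 8 + 1)) = (16 * q + 2) * b₀ := by ring
          rw [e3]
          ring
        calc ((5 + 8 * q) * (m ^ 3 * W * Z * n)) * (512 * (m ^ 3 * W)) =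
            (5 + 8 * q) * 512 * m ^ 6 * Z * (W * W) * n := by ring
          _ = _ := by
            rw [e1, e2, mul_pow, hW]
            ring
    _ ≤ ((5 + 8 * q) * 1024 * ((q + 2) ^ 6 * 2 ^ (16 * q + 2))) ^ (b + 1) * (w + 1) ^ 6 * n := by
        apply Nat.mul_le_mul_right
        apply Nat.mul_le_mul_right
        have hX1 : 1 ≤ (q + 2) ^ 6 * 2 ^ (16 * q + 2) := Nat.one_le_iff_ne_zero.2 (by positivity)
        generalize (q + 2) ^ 6 * 2 ^ (16 * q + 2) = X at hX1 ⊢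
        have hY1 : 1 ≤ (5 + 8 * q) * 1024 := by omega
        generalize (5 + 8 * q) * 1024 = Y at hY1 ⊢
        rw [pow_succ]
        calc Y * X ^ b₀ ≤ (Y * X) * (Y * X) ^ b := by
              apply Nat.mul_le_mul
              · exact Nat.le_mul_of_pos_right _ hX1
              · calc X ^ b₀ ≤ X ^ b := Nat.pow_le_pow_right hX1 hb
                  _ ≤ (Y * X) ^ b := Nat.pow_le_pow_left (Nat.le_mul_of_pos_left _ hY1) _
          _ = _ := by ring

/-- **All uniformities.** -/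
theorem low (s q : ℕ) (hq : 1 ≤ q) (ε : ℝ) (hε : 0 < ε) : ∃ δ : ℝ, 0 < δ ∧ ∃ n₀ : ℕ,
    ∀ n : ℕ, n₀ ≤ n → ∀ w N : ℕ, tow (s + 2) (ε * n) ≤ N → (w : ℝ) + 1 ≤ Real.logb 2 N ^ δ →
      ∀ (κ : Type) (P : QProtocol κ q (s + 2)) (c : Finset ℕ → κ), (P.steps : ℝ) ≤ δ * n →
        P.Width w N → P.Computes N c → ∃ S ⊆ range N, S.card = n ∧ Homogeneous (s + 3) c S := by
  obtain ⟨δ₁, hδ₁, n₁, h1⟩ := B_le (s + 1) (ε / 8) (by positivity)
  -- the smaller tower
  have hsmall : ∃ n₂ : ℕ, ∀ n : ℕ, n₂ ≤ n → 4 * tow s (ε / 8 * n) ≤ tow s (ε * n) := by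
    cases s with
    | zero =>
      refine ⟨0, fun n _ => ?_⟩
      simp only [tow]
      have : (0 : ℝ) ≤ ε * n := by positivity
      linarith
    | succ t =>
      obtain ⟨n₂, h2⟩ := Pool.Agent.TH138.NF.tow_big t 4 (ε / 8) ε (by positivity) (by linarith)
      refine ⟨n₂, fun n hn => ?_⟩
      have := h2 n hn
      rw [tow_eq, tow_eq] at this
      exact_mod_cast this
  obtain ⟨n₂, h2⟩ := hsmall
  set G : ℝ := (2 * s + 6) * ((q + 2) / ε + 1) with hG
  have hG0 : 0 < G := by positivity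
  set K₀ : ℝ := (5 + q) + 2 * (s + 3) + (2 * s + 6) with hK₀
  have hK₀0 : 0 < K₀ := by positivity
  obtain ⟨n₃, h3⟩ := exists_nat_gt (4 * K₀ / ε)
  set L₀ : ℝ := (q : ℝ) * 2 ^ (s + 3) + 1 with hL₀
  have hL₀0 : 0 < L₀ := by positivity
  refine ⟨min (δ₁ / L₀) (1 / (4 * G)), by positivity, max (max n₁ n₂) (max n₃ 1), ?_⟩
  intro n hn w N hN hw κ P c hb hPw hc
  have hn1 : n₁ ≤ n := (le_max_left _ _).trans ((le_max_left _ _).trans hn)
  have hn2 : n₂ ≤ n := (le_max_right _ _).trans ((le_max_left _ _).trans hn)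
  have hn3 : n₃ ≤ n := (le_max_left _ _).trans ((le_max_right _ _).trans hn)
  have hn4 : 1 ≤ n := (le_max_right _ _).trans ((le_max_right _ _).trans hn)
  have hnR : (1 : ℝ) ≤ n := by exact_mod_cast hn4
  set δ := min (δ₁ / L₀) (1 / (4 * G)) with hδ
  have hδ0 : 0 < δ := by positivity
  set b := P.steps with hbdef
  refine main hq P c hPw hc hn4 ?_
  rw [← hbdef]
  -- the number of vertices for protocols without queries
  have hb' : ((b * (q * 2 ^ (s + 1 + 2) + 1) : ℕ) : ℝ) ≤ δ₁ * n := by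
    push_cast
    have e1 : (q : ℝ) * 2 ^ (s + 1 + 2) + 1 = L₀ := by
      rw [hL₀]
    rw [e1]
    calc (b : ℝ) * L₀ ≤ (δ * n) * L₀ := mul_le_mul_of_nonneg_right hb hL₀0.le
      _ ≤ (δ₁ / L₀ * n) * L₀ := by
          apply mul_le_mul_of_nonneg_right _ hL₀0.le
          exact mul_le_mul_of_nonneg_right (min_le_left _ _) (by positivity)
      _ = δ₁ * n := by field_simp
  have hM := h1 n hn1 _ hb'
  rw [tow_eq] at hM
  -- logarithms
  have hN0 : (0 : ℝ) < N := by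
    refine lt_of_lt_of_le ?_ hN
    show (0 : ℝ) < 2 ^ _
    positivity
  set Λ := Real.logb 2 N with hΛ
  have hL : tow (s + 1) (ε * n) ≤ Λ := by
    rw [hΛ, Real.le_logb_iff_rpow_le (by norm_num) hN0]
    exact hN
  have hΛ0 : 0 < Λ := by
    refine lt_of_lt_of_le ?_ hL
    show (0 : ℝ) < 2 ^ _
    positivity
  set lam := Real.logb 2 Λ with hlam
  have hlamΛ : (2 : ℝ) ^ lam = Λ := Real.rpow_logb (by norm_num) (by norm_num) hΛ0
  have hL2 : tow s (ε * n) ≤ lam := by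
    rw [hlam, Real.le_logb_iff_rpow_le (by norm_num) hΛ0]
    exact hL
  have hεn : ε * n ≤ lam := by
    refine le_trans ?_ hL2
    have := Pool.Agent.TH138.NF.le_tow s (ε * n)
    rw [tow_eq] at this
    exact this
  have hlam0 : 0 < lam := lt_of_lt_of_le (by positivity) hεn
  have hK : K₀ ≤ lam / 4 := by
    have h4 : 4 * K₀ / ε < n := lt_of_lt_of_le h3 (by exact_mod_cast hn3)
    rw [div_lt_iff₀ hε] at h4
    nlinarith
  have hτ : tow s (ε / 8 * n) ≤ lam / 4 := by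
    have := h2 n hn2
    linarith
  -- `A`
  set A : ℕ := (q + 2) ^ b * (w + 2) with hA
  have hA1 : (1 : ℝ) ≤ A := by
    have : 1 ≤ A := Nat.mul_pos (Nat.one_le_pow _ _ (by omega)) (by omega)
    exact_mod_cast this
  have hAle : (A : ℝ) ≤ 2 ^ (1 + ((q + 2) / ε + 1) * δ * lam) := by
    have g1 : ((q : ℝ) + 2) ^ b ≤ 2 ^ (((q : ℝ) + 2) / ε * δ * lam) := by
      have g2 : (q : ℝ) + 2 ≤ 2 ^ ((q : ℝ) + 2) := Pool.Agent.TH138.NF.two_rpow_ge _
      calc ((q : ℝ) + 2) ^ b ≤ (2 ^ ((q : ℝ) + 2)) ^ b :=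
            pow_le_pow_left₀ (by positivity) g2 _
        _ = 2 ^ (((q : ℝ) + 2) * b) := by
            rw [← Real.rpow_natCast, ← Real.rpow_mul (by norm_num)]
        _ ≤ 2 ^ (((q : ℝ) + 2) / ε * δ * lam) := by
            apply Real.rpow_le_rpow_of_exponent_le (by norm_num)
            calc ((q : ℝ) + 2) * b ≤ ((q : ℝ) + 2) * (δ * n) :=
                  mul_le_mul_of_nonneg_left hb (by positivity)
              _ = ((q : ℝ) + 2) / ε * δ * (ε * n) := by field_simp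
              _ ≤ ((q : ℝ) + 2) / ε * δ * lam :=
                  mul_le_mul_of_nonneg_left hεn (by positivity)
    have g3 : (w : ℝ) + 2 ≤ 2 ^ (1 + δ * lam) := by
      have g4 : Λ ^ δ = 2 ^ (δ * lam) := by
        rw [← hlamΛ, ← Real.rpow_mul (by norm_num), mul_comm]
      rw [g4] at hw
      rw [Real.rpow_add (by norm_num), Real.rpow_one]
      have : (0 : ℝ) ≤ w := Nat.cast_nonneg w
      linarith
    rw [hA]
    push_cast
    calc ((q : ℝ) + 2) ^ b * ((w : ℝ) + 2) ≤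
        2 ^ (((q : ℝ) + 2) / ε * δ * lam) * 2 ^ (1 + δ * lam) :=
          mul_le_mul g1 g3 (by positivity) (by positivity)
      _ = 2 ^ (1 + ((q + 2) / ε + 1) * δ * lam) := by
          rw [← Real.rpow_add (by norm_num)]
          congr 1
          ring
  have hApow : (A : ℝ) ^ (2 * s + 6) ≤ 2 ^ ((2 * s + 6) + lam / 4) := by
    calc (A : ℝ) ^ (2 * s + 6) ≤ (2 ^ (1 + ((q + 2) / ε + 1) * δ * lam)) ^ (2 * s + 6) :=
          pow_le_pow_left₀ (by positivity) hAle _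
      _ = 2 ^ ((1 + ((q + 2) / ε + 1) * δ * lam) * (2 * s + 6)) := by
          rw [← Real.rpow_natCast, ← Real.rpow_mul (by norm_num)]
          push_cast
          rfl
      _ ≤ 2 ^ ((2 * s + 6) + lam / 4) := by
          apply Real.rpow_le_rpow_of_exponent_le (by norm_num)
          have e1 : (1 + ((q + 2) / ε + 1) * δ * lam) * (2 * s + 6) =
              (2 * s + 6) + G * δ * lam := by
            rw [hG]
            ring
          rw [e1]
          have e2 : G * δ ≤ 1 / 4 := by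
            calc G * δ ≤ G * (1 / (4 * G)) := mul_le_mul_of_nonneg_left (min_le_right _ _) hG0.le
              _ = 1 / 4 := by field_simp
          nlinarith
  -- the bound
  set M := B (b * (q * 2 ^ (s + 1 + 2) + 1)) n (s + 1) with hMdef
  set τ := tow (s + 1) (ε / 8 * n) with hτdef
  have hτ2 : τ = 2 ^ tow s (ε / 8 * n) := rfl
  have hτ1 : 1 ≤ τ := by
    rw [hτ2]
    apply Real.one_le_rpow (by norm_num)
    have h5 := Pool.Agent.TH138.NF.le_tow s (ε / 8 * n)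
    rw [tow_eq] at h5
    exact le_trans (by positivity) h5
  -- an integer between
  have hY : ∃ Y : ℕ, M ≤ 2 ^ Y ∧ (Y : ℝ) ≤ τ + 1 := by
    refine ⟨⌈τ⌉₊, ?_, (Nat.ceil_lt_add_one (by linarith)).le⟩
    have h6 : (M : ℝ) ≤ 2 ^ ((⌈τ⌉₊ : ℕ) : ℝ) := by
      refine hM.trans ?_
      show (2 : ℝ) ^ _ ≤ _
      exact Real.rpow_le_rpow_of_exponent_le (by norm_num) (Nat.le_ceil τ)
    rw [Real.rpow_natCast] at h6
    exact_mod_cast h6
  obtain ⟨Y, hMY, hYτ⟩ := hY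
  refine (NN_le q b w (s + 1 + 1) M Y hMY hq).trans ?_
  rw [← hA]
  have hfin : (((4 + Y + q * A ^ (s + 1 + 1 + 1)) * (4 * A) ^ (s + 1 + 1 + 1) : ℕ) : ℝ) ≤ Λ := by
    push_cast
    have e3 : s + 1 + 1 + 1 = s + 3 := rfl
    rw [e3]
    have hAs : (1 : ℝ) ≤ (A : ℝ) ^ (s + 3) := one_le_pow₀ hA1
    have h7 : (4 : ℝ) + Y + q * (A : ℝ) ^ (s + 3) ≤ (6 + q) * ((A : ℝ) ^ (s + 3) * τ) := by
      have a1 : 1 ≤ (A : ℝ) ^ (s + 3) * τ := one_le_mul_of_one_le_of_one_le hAs hτ1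
      have a2 : τ ≤ (A : ℝ) ^ (s + 3) * τ := le_mul_of_one_le_left (by linarith) hAs
      have a3 : (A : ℝ) ^ (s + 3) ≤ (A : ℝ) ^ (s + 3) * τ :=
        le_mul_of_one_le_right (by positivity) hτ1
      have a4 : (0 : ℝ) ≤ q := Nat.cast_nonneg q
      have a5 := mul_le_mul_of_nonneg_left a3 a4
      have a6 : (6 + (q : ℝ)) * ((A : ℝ) ^ (s + 3) * τ) =
          6 * ((A : ℝ) ^ (s + 3) * τ) + q * ((A : ℝ) ^ (s + 3) * τ) := by ring
      linarith
    calc ((4 : ℝ) + Y + q * (A : ℝ) ^ (s + 3)) * (4 * (A : ℝ)) ^ (s + 3) ≤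
        ((6 + q) * ((A : ℝ) ^ (s + 3) * τ)) * (4 * (A : ℝ)) ^ (s + 3) :=
          mul_le_mul_of_nonneg_right h7 (by positivity)
      _ = (6 + q) * 4 ^ (s + 3) * (A : ℝ) ^ (2 * s + 6) * τ := by
          rw [mul_pow]
          ring
      _ ≤ 2 ^ ((5 + q : ℝ) + 2 * (s + 3)) * 2 ^ ((2 * s + 6) + lam / 4) * 2 ^ (lam / 4) := by
          apply mul_le_mul _ _ (by positivity) (by positivity)
          · apply mul_le_mul _ hApow (by positivity) (by positivity)
            rw [Real.rpow_add (by norm_num)]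
            apply mul_le_mul _ _ (by positivity) (by positivity)
            · have h8 : (6 + q : ℝ) ≤ 2 ^ (5 + q : ℝ) := by
                have h9 : (6 + q : ℕ) ≤ 2 ^ (5 + q) := by
                  have := Nat.lt_two_pow_self (n := 5 + q)
                  omega
                have h10 : ((6 + q : ℕ) : ℝ) ≤ ((2 ^ (5 + q) : ℕ) : ℝ) := by exact_mod_cast h9
                push_cast at h10
                rw [← Real.rpow_natCast] at h10
                push_cast at h10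
                exact h10
              exact h8
            · rw [show (2 : ℝ) * (s + 3) = ((2 * (s + 3) : ℕ) : ℝ) by push_cast; ring,
                Real.rpow_natCast, pow_mul]
              norm_num
          · rw [hτ2]
            exact Real.rpow_le_rpow_of_exponent_le (by norm_num) hτ
      _ = 2 ^ (K₀ + lam / 4 + lam / 4) := by
          rw [← Real.rpow_add (by norm_num), ← Real.rpow_add (by norm_num)]
          congr 1
          rw [hK₀]
          ring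
      _ ≤ 2 ^ lam := by
          apply Real.rpow_le_rpow_of_exponent_le (by norm_num)
          linarith
      _ = Λ := hlamΛ
  rw [hΛ, Real.le_logb_iff_rpow_le (by norm_num) hN0, Real.rpow_natCast] at hfin
  exact_mod_cast hfin

end Pool.Agent.Y424.SP
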