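import Pool.Agent.Y424.SP.Proto

/-!
# Replacing the queries by announcements
-/

set_option autoImplicit false

namespace Pool.Agent.Y424.SP

open Finset Module
open Pool.Agent.Y424.SX
open Pool.Agent.TH360.SR (SliceRankLE)
open Pool.Agent.TH138.NF (Protocol askBits run_askBits bits_askBits Hom B homogeneous_of_hom)

variable {κ : Type} {q r : ℕ}

/-- If all queried functions are sums of functions of `r` coordinates, the queries can be replaced
by announcements. -/
theorem replace (K : ℕ → ℕ) (M : ℕ) : ∀ P : QProtocol κ q r,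
    (∀ h ∈ P.funs, ∃ (F : Type) (_ : Field F) (w : ℕ) (a : Fin q → F)
      (Φ : ℕ → Fin (w + 1) → F) (g : Fin (r + 1) → Fin (w + 1) → (Fin r → ℕ) → F),
      Function.Injective a ∧ Rep univ Φ (3 * M)
        (fun x => a (h (univ.image fun i => K (x i)))) g) →
    ∃ P' : Protocol κ r, P'.bits ≤ P.steps * (q * 2 ^ (r + 1) + 1) ∧
      ∀ y : Fin (r + 1) → ℕ, StrictMono y → (∀ i, y i < M) →
        P'.run y = P.run (fun i => K (3 * y i + 2)) := by
  classical
  intro P
  induction P with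
  | out a =>
    intro _
    exact ⟨.out a, by simp [Protocol.bits], fun y _ _ => rfl⟩
  | ask j f P Q hP hQ =>
    intro hF
    simp only [QProtocol.funs, mem_union] at hF
    obtain ⟨P', hP1, hP2⟩ := hP (fun h hh => hF h (Or.inl hh))
    obtain ⟨Q', hQ1, hQ2⟩ := hQ (fun h hh => hF h (Or.inr hh))
    refine ⟨.ask j (fun z => f (fun i => K (3 * z i + 2))) P' Q', ?_, ?_⟩
    · simp only [Protocol.bits, QProtocol.steps]
      have h1 : P.steps * (q * 2 ^ (r + 1) + 1) ≤ max P.steps Q.steps * (q * 2 ^ (r + 1) + 1) :=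
        Nat.mul_le_mul_right _ (le_max_left _ _)
      have h2 : Q.steps * (q * 2 ^ (r + 1) + 1) ≤ max P.steps Q.steps * (q * 2 ^ (r + 1) + 1) :=
        Nat.mul_le_mul_right _ (le_max_right _ _)
      have h3 : max P'.bits Q'.bits ≤ max P.steps Q.steps * (q * 2 ^ (r + 1) + 1) :=
        max_le (hP1.trans h1) (hQ1.trans h2)
      have h4 : (max P.steps Q.steps + 1) * (q * 2 ^ (r + 1) + 1) =
          max P.steps Q.steps * (q * 2 ^ (r + 1) + 1) + (q * 2 ^ (r + 1) + 1) := by ring
      omega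
    · intro y hy hM
      simp only [Protocol.run, QProtocol.run]
      rw [hP2 y hy hM, hQ2 y hy hM]
      rfl
  | query h P hP =>
    intro hF
    simp only [QProtocol.funs, mem_insert, mem_biUnion, mem_univ, true_and] at hF
    have h1 : ∀ i, ∃ P' : Protocol κ r, P'.bits ≤ (P i).steps * (q * 2 ^ (r + 1) + 1) ∧
      ∀ y : Fin (r + 1) → ℕ, StrictMono y → (∀ i, y i < M) →
        P'.run y = (P i).run (fun i => K (3 * y i + 2)) :=
      fun i => hP i (fun h' hh' => hF h' (Or.inr ⟨i, hh'⟩))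
    choose P' hP1 hP2 using h1
    obtain ⟨F, _, w, a, Φ, g, ha, hT⟩ := hF h (Or.inl rfl)
    have hC : ∀ i, (P' i).bits ≤ (Finset.univ.sup fun i => (P i).steps) *
        (q * 2 ^ (r + 1) + 1) := fun i => (hP1 i).trans
      (Nat.mul_le_mul_right _ (Finset.le_sup (f := fun i => (P i).steps) (mem_univ i)))
    obtain ⟨R, hR1, hR2⟩ := simul a ha (fun S => h (S.image K)) Φ g (by
      intro x hx hxM
      have h2 := hT x hx hxM
      beta_reduce at h2 ⊢
      rw [image_image]
      exact h2) _ P' hC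
    refine ⟨R, ?_, ?_⟩
    · simp only [QProtocol.steps]
      have h4 : ((Finset.univ.sup fun i => (P i).steps) + 1) * (q * 2 ^ (r + 1) + 1) =
          (Finset.univ.sup fun i => (P i).steps) * (q * 2 ^ (r + 1) + 1) +
            (q * 2 ^ (r + 1) + 1) := by ring
      omega
    · intro y hy hM
      rw [hR2 y hy hM]
      simp only [QProtocol.run]
      rw [image_image]
      exact hP2 _ y hy hM

/-- the number of vertices which is sufficient -/
def NN (q b w r M : ℕ) : ℕ :=
  (12 * M * q ^ ((w + 1) * (w + 2) ^ r * (q + 2) ^ b)) ^ ((4 * ((q + 2) ^ b * (w + 2))) ^ (r + 1))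

/-- A protocol with queries is a protocol without queries on a large set of vertices. -/
theorem convert (hq : 1 ≤ q) (P : QProtocol κ q r) {w N M : ℕ} (hP : P.Width w N) (hM : 1 ≤ M)
    (hN : NN q P.steps w r M ≤ N) :
    ∃ (K : ℕ → ℕ) (P' : Protocol κ r), StrictMono K ∧ (∀ h < M, K h < N) ∧
      P'.bits ≤ P.steps * (q * 2 ^ (r + 1) + 1) ∧
      ∀ y : Fin (r + 1) → ℕ, StrictMono y → (∀ i, y i < M) →
        P'.run y = P.run (fun i => K (y i)) := by
  classical
  have hw := P.width_funs hP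
  have hw' : ∀ v : {h // h ∈ P.funs}, ∃ (F : Type) (_ : Field F), SliceRankLE F w r N v.1 :=
    fun v => hw v.1 v.2
  choose F hF hS using hw'
  have hrep := fun v : {h // h ∈ P.funs} => rep_of_slice (hS v)
  choose a Φ g ha hg using hrep
  have hm : Fintype.card {h // h ∈ P.funs} ≤ (q + 2) ^ P.steps := by
    rw [Fintype.card_coe]
    exact P.card_funs
  set m := Fintype.card {h // h ∈ P.funs} with hmdef
  have hm1 : 1 ≤ (q + 2) ^ P.steps := Nat.one_le_pow _ _ (by omega)
  have hQ1 : 1 ≤ (Fintype.card (Fin q) ^ ((w + 1) * (w + 2) ^ r)) ^ m := by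
    rw [Fintype.card_fin]
    exact Nat.one_le_pow _ _ (Nat.one_le_pow _ _ hq)
  have hE : m * (2 * w + 2) + 1 ≤ 2 * ((q + 2) ^ P.steps * (w + 2)) := by
    have h2 : m * (2 * w + 2) ≤ (q + 2) ^ P.steps * (2 * w + 2) := Nat.mul_le_mul_right _ hm
    nlinarith
  obtain ⟨K, hK, hKN, hK'⟩ := iterate (w := w) a (r + 1) (fun v => v.1) ∅ Φ N (3 * M) (by omega)
    (by simp) (fun v => ⟨g v, hg v⟩) (by
      refine (LL_le _ _ _ (by omega) hQ1 (by omega) _).trans (le_trans ?_ hN)
      have hbase : 4 * (3 * M) * (Fintype.card (Fin q) ^ ((w + 1) * (w + 2) ^ r)) ^ m ≤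
          12 * M * q ^ ((w + 1) * (w + 2) ^ r * (q + 2) ^ P.steps) := by
        have e : 4 * (3 * M) = 12 * M := by ring
        rw [e, Fintype.card_fin, ← pow_mul]
        exact Nat.mul_le_mul_left _ (Nat.pow_le_pow_right hq (Nat.mul_le_mul_left _ hm))
      have hbase1 : 1 ≤ 12 * M * q ^ ((w + 1) * (w + 2) ^ r * (q + 2) ^ P.steps) := by
        have := Nat.one_le_pow ((w + 1) * (w + 2) ^ r * (q + 2) ^ P.steps) q hq
        exact Nat.one_le_iff_ne_zero.2 (by positivity)
      refine (Nat.pow_le_pow_left hbase _).trans ?_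
      apply Nat.pow_le_pow_right hbase1
      apply Nat.pow_le_pow_left
      have e : 4 * ((q + 2) ^ P.steps * (w + 2)) = 2 * (2 * ((q + 2) ^ P.steps * (w + 2))) := by
        ring
      rw [e]
      exact Nat.mul_le_mul_left _ hE)
  obtain ⟨P', hP1, hP2⟩ := replace K M P (by
    intro h hh
    obtain ⟨Φ', g', hg'⟩ := hK' ⟨h, hh⟩
    exact ⟨F ⟨h, hh⟩, hF ⟨h, hh⟩, w, a ⟨h, hh⟩, Φ', g', ha ⟨h, hh⟩, hg'⟩)
  refine ⟨fun y => K (3 * y + 2), P', fun x y hxy => hK (by omega), fun h hh => hKN _ (by omega),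
    hP1, hP2⟩

/-- Colourings computed by protocols with queries. -/
theorem main (hq : 1 ≤ q) {s n w N : ℕ} (P : QProtocol κ q (s + 1)) (c : Finset ℕ → κ)
    (hP : P.Width w N) (hc : P.Computes N c) (hn : 1 ≤ n)
    (hN : NN q P.steps w (s + 1) (B (P.steps * (q * 2 ^ (s + 2) + 1)) n s) ≤ N) :
    ∃ S ⊆ range N, S.card = n ∧ TH360.SR.Homogeneous (s + 2) c S := by
  classical
  have hB := Pool.Agent.TH138.NF.B_pos (b := P.steps * (q * 2 ^ (s + 2) + 1)) hn s
  obtain ⟨K, P', hK, hKN, hb, hrun⟩ := convert hq P hP hB hN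
  set M := B (P.steps * (q * 2 ^ (s + 2) + 1)) n s with hM
  obtain ⟨S, hS, hSc, hSH⟩ := Pool.Agent.TH138.NF.upper n s _ P' (range M) hb (by
    rw [card_range])
  have hcomp : Pool.Agent.TH138.NF.Computes P' M (fun S => c (S.image K)) := by
    intro x hx hxM
    have h0 : StrictMono (fun i => K (x i)) := hK.comp hx
    rw [hrun x hx hxM, hc _ h0 (fun i => hKN _ (hxM i))]
    beta_reduce
    rw [image_image]
    rfl
  have hH := homogeneous_of_hom hcomp hS hSH
  refine ⟨S.map ⟨K, hK.injective⟩, ?_, by rw [card_map, hSc], ?_⟩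
  · intro x hx
    obtain ⟨h, hh, rfl⟩ := mem_map.1 hx
    exact mem_range.2 (hKN _ (mem_range.1 (hS hh)))
  · intro A hA B hB hAc hBc
    obtain ⟨A', hA', rfl⟩ := subset_map_iff.1 hA
    obtain ⟨B', hB', rfl⟩ := subset_map_iff.1 hB
    rw [card_map] at hAc hBc
    have := hH A' hA' B' hB' hAc hBc
    beta_reduce at this
    rw [map_eq_image, map_eq_image]
    exact this

end Pool.Agent.Y424.SP
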