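import Pool.Agent.Y424.SP.Asym

/-!
# The explicit bound for all uniformities
-/

set_option autoImplicit false

namespace Pool.Agent.Y424.SP

open Finset Module
open Pool.Agent.Y424.SX
open Pool.Agent.TH360.SR (SliceRankLE Homogeneous twr tow twr_mono le_twr mul_twr)
open Pool.Agent.TH138.NF (B B_pos)

theorem B_twr (s : ℕ) : ∃ C : ℕ, 1 ≤ C ∧ ∀ b n : ℕ, 1 ≤ n →
    B b n (s + 1) ≤ 2 ^ twr s (C ^ (b + 1) * n) := by
  induction s with
  | zero =>
    refine ⟨4, by norm_num, fun b n _ => (B_one b n).trans ?_⟩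
    apply Nat.pow_le_pow_right (by norm_num)
    show 2 ^ (2 * b + 1) * n ≤ 4 ^ (b + 1) * n
    apply Nat.mul_le_mul_right
    rw [show (4 : ℕ) = 2 ^ 2 by norm_num, ← pow_mul]
    exact Nat.pow_le_pow_right (by norm_num) (by omega)
  | succ s ih =>
    obtain ⟨C, hC, h⟩ := ih
    refine ⟨(2 * s + 6) * C, Nat.one_le_iff_ne_zero.2 (by positivity), fun b n hn => ?_⟩
    have hk := h b n hn
    have hk1 : 1 ≤ B b n (s + 1) := B_pos hn (s + 1)
    set X := C ^ (b + 1) * n with hX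
    have hX1 : 1 ≤ X := Nat.one_le_iff_ne_zero.2 (by positivity)
    have hT1 : 1 ≤ twr s X := twr_pos s X hX1
    have e1 : B b n (s + 1 + 1) = 2 ^ (B b n (s + 1) *
        (1 + 2 ^ b * ((s + 1 + 1) * (B b n (s + 1)) ^ (s + 1)))) := by
      conv_lhs => unfold B
      rw [← pow_succ', ← pow_mul]
      congr 1
      ring
    rw [e1]
    generalize B b n (s + 1) = k at hk hk1
    apply Nat.pow_le_pow_right (by norm_num)
    have e2 : k * (1 + 2 ^ b * ((s + 1 + 1) * k ^ (s + 1))) ≤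
        2 ^ b * (s + 3) * k ^ (s + 2) := by
      have h3 : 1 ≤ 2 ^ b * k ^ (s + 1) := Nat.mul_pos (by positivity) (by positivity)
      calc k * (1 + 2 ^ b * ((s + 1 + 1) * k ^ (s + 1))) ≤
            k * (2 ^ b * k ^ (s + 1) + 2 ^ b * ((s + 1 + 1) * k ^ (s + 1))) := by gcongr
        _ = 2 ^ b * (s + 3) * k ^ (s + 2) := by ring
    refine e2.trans ?_
    calc 2 ^ b * (s + 3) * k ^ (s + 2) ≤
        2 ^ b * 2 ^ (s + 3) * (2 ^ twr s X) ^ (s + 2) :=
          Nat.mul_le_mul (Nat.mul_le_mul_left _ Nat.lt_two_pow_self.le)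
            (Nat.pow_le_pow_left hk _)
      _ = 2 ^ (b + (s + 3) + twr s X * (s + 2)) := by rw [← pow_mul, ← pow_add, ← pow_add]
      _ ≤ 2 ^ ((b + 2 * s + 5) * twr s X) := by
          apply Nat.pow_le_pow_right (by norm_num)
          nlinarith
      _ ≤ 2 ^ twr s ((b + 2 * s + 5) * X) :=
          Nat.pow_le_pow_right (by norm_num) (mul_twr s _ X (by omega) hX1)
      _ ≤ 2 ^ twr s (((2 * s + 6) * C) ^ (b + 1) * n) := by
          apply Nat.pow_le_pow_right (by norm_num)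
          apply twr_mono
          have h4 : b + 2 * s + 5 ≤ (2 * s + 6) ^ (b + 1) := by
            clear hk hk1 e1 e2 hX hT1 hX1
            clear_value X
            induction b with
            | zero => simp
            | succ b ihb =>
              rw [pow_succ]
              have h5 : 1 ≤ (2 * s + 6) ^ (b + 1) := Nat.one_le_pow _ _ (by omega)
              nlinarith
          calc (b + 2 * s + 5) * X ≤ (2 * s + 6) ^ (b + 1) * X := Nat.mul_le_mul_right _ h4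
            _ = ((2 * s + 6) * C) ^ (b + 1) * n := by
                rw [hX, mul_pow]
                ring

/-- **The explicit bound**, for uniformity `s + 3`. -/
theorem explicit (s q : ℕ) (hq : 1 ≤ q) : ∃ C : ℕ, ∀ b w n N : ℕ,
    2 ^ (C ^ (b + 1) * (w + 1) ^ (2 * s + 6) * twr s (C ^ (b + 1) * n)) ≤ N →
    ∀ (κ : Type) (P : QProtocol κ q (s + 2)) (c : Finset ℕ → κ), P.steps ≤ b → P.Width w N →
      P.Computes N c → ∃ S ⊆ range N, S.card = n ∧ Homogeneous (s + 3) c S := by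
  obtain ⟨C₀, hC₀, hB⟩ := B_twr s
  set L := q * 2 ^ (s + 3) + 1 with hL
  set C₁ := C₀ ^ L with hC₁
  have hC₁1 : 1 ≤ C₁ := Nat.one_le_pow _ _ hC₀
  set X := (6 + q) * (4 * 2) ^ (s + 3) * 2 ^ (s + 3) * (q + 2) ^ (2 * s + 6) with hX
  have hX1 : 1 ≤ X := Nat.one_le_iff_ne_zero.2 (by positivity)
  refine ⟨X * (C₀ * C₁), fun b w n N hN κ P c hb hw hc => ?_⟩
  rcases Nat.eq_zero_or_pos n with rfl | hn
  · refine ⟨∅, by simp, rfl, fun A hA B hB _ _ => ?_⟩
    rw [subset_empty.1 hA, subset_empty.1 hB]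
  refine main hq P c hw hc hn (le_trans ?_ hN)
  set b₀ := P.steps with hb₀
  have e0 : b₀ * (q * 2 ^ (s + 1 + 2) + 1) = b₀ * L := rfl
  rw [e0]
  refine (NN_le q b₀ w (s + 1 + 1) _ _ (hB (b₀ * L) n hn) hq).trans ?_
  apply Nat.pow_le_pow_right (by norm_num)
  set m := (q + 2) ^ b₀ with hm
  have hm1 : 1 ≤ m := Nat.one_le_pow _ _ (by omega)
  have hw2 : w + 2 ≤ 2 * (w + 1) := by omega
  set W := (w + 1) ^ (s + 3) with hW
  have hW1 : 1 ≤ W := Nat.one_le_pow _ _ (by omega)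
  have hms : 1 ≤ m ^ (s + 3) := Nat.one_le_pow _ _ hm1
  -- the tower
  set τ := twr s (C₀ ^ (b₀ * L + 1) * n) with hτ
  have hτ1 : 1 ≤ τ := twr_pos _ _ (Nat.one_le_iff_ne_zero.2 (by positivity))
  have hτ2 : τ ≤ twr s ((X * (C₀ * C₁)) ^ (b + 1) * n) := by
    apply twr_mono
    apply Nat.mul_le_mul_right
    calc C₀ ^ (b₀ * L + 1) = C₀ * C₁ ^ b₀ := by
          rw [pow_succ, hC₁, ← pow_mul, mul_comm L b₀, mul_comm]
      _ ≤ (X * (C₀ * C₁)) * (X * (C₀ * C₁)) ^ b := by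
          apply Nat.mul_le_mul
          · calc C₀ ≤ C₀ * C₁ := Nat.le_mul_of_pos_right _ hC₁1
              _ ≤ X * (C₀ * C₁) := Nat.le_mul_of_pos_left _ hX1
          · calc C₁ ^ b₀ ≤ C₁ ^ b := Nat.pow_le_pow_right hC₁1 hb
              _ ≤ (X * (C₀ * C₁)) ^ b := by
                  apply Nat.pow_le_pow_left
                  calc C₁ ≤ C₀ * C₁ := Nat.le_mul_of_pos_left _ hC₀
                    _ ≤ X * (C₀ * C₁) := Nat.le_mul_of_pos_left _ hX1
      _ = _ := by rw [pow_succ']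
  have h1 : (m * (w + 2)) ^ (s + 1 + 1 + 1) ≤ 2 ^ (s + 3) * (m ^ (s + 3) * W) := by
    calc (m * (w + 2)) ^ (s + 1 + 1 + 1) ≤ (m * (2 * (w + 1))) ^ (s + 3) :=
          Nat.pow_le_pow_left (Nat.mul_le_mul_left _ hw2) _
      _ = 2 ^ (s + 3) * (m ^ (s + 3) * W) := by
          rw [hW, mul_pow, mul_pow]
          ring
  have h2 : (4 * (m * (w + 2))) ^ (s + 1 + 1 + 1) ≤ (4 * 2) ^ (s + 3) * (m ^ (s + 3) * W) := by
    calc (4 * (m * (w + 2))) ^ (s + 1 + 1 + 1) = 4 ^ (s + 3) * (m * (w + 2)) ^ (s + 1 + 1 + 1) := by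
          rw [mul_pow]
      _ ≤ 4 ^ (s + 3) * (2 ^ (s + 3) * (m ^ (s + 3) * W)) := Nat.mul_le_mul_left _ h1
      _ = _ := by
          rw [mul_pow]
          ring
  set R := m ^ (s + 3) * W with hR
  have hR1 : 1 ≤ R := Nat.mul_pos hms hW1
  have h2s : 1 ≤ 2 ^ (s + 3) := Nat.one_le_two_pow
  have h3 : 4 + τ + q * (m * (w + 2)) ^ (s + 1 + 1 + 1) ≤ (6 + q) * 2 ^ (s + 3) * (R * τ) := by
    have a2 : τ ≤ R * τ := Nat.le_mul_of_pos_left _ hR1
    have a3 : R ≤ R * τ := Nat.le_mul_of_pos_right _ hτ1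
    have a4 : q * (m * (w + 2)) ^ (s + 1 + 1 + 1) ≤ q * (2 ^ (s + 3) * (R * τ)) :=
      Nat.mul_le_mul_left _ (h1.trans (Nat.mul_le_mul_left _ a3))
    have a5 : R * τ ≤ 2 ^ (s + 3) * (R * τ) := Nat.le_mul_of_pos_left _ h2s
    have a6 : (6 + q) * 2 ^ (s + 3) * (R * τ) =
        6 * (2 ^ (s + 3) * (R * τ)) + q * (2 ^ (s + 3) * (R * τ)) := by ring
    omega
  calc (4 + τ + q * (m * (w + 2)) ^ (s + 1 + 1 + 1)) * (4 * (m * (w + 2))) ^ (s + 1 + 1 + 1) ≤
      ((6 + q) * 2 ^ (s + 3) * (R * τ)) * ((4 * 2) ^ (s + 3) * R) := Nat.mul_le_mul h3 h2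
    _ = ((6 + q) * (4 * 2) ^ (s + 3) * 2 ^ (s + 3)) * ((q + 2) ^ (2 * s + 6)) ^ b₀ *
        (w + 1) ^ (2 * s + 6) * τ := by
        have e1 : m ^ (s + 3) * m ^ (s + 3) = ((q + 2) ^ (2 * s + 6)) ^ b₀ := by
          rw [hm, ← pow_add, ← pow_mul, ← pow_mul]
          congr 1
          ring
        have e2 : W * W = (w + 1) ^ (2 * s + 6) := by
          rw [hW, ← pow_add]
          congr 1
          ring
        rw [← e1, ← e2, hR]
        ring
    _ ≤ (X * (C₀ * C₁)) ^ (b + 1) * (w + 1) ^ (2 * s + 6) *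
        twr s ((X * (C₀ * C₁)) ^ (b + 1) * n) := by
        apply Nat.mul_le_mul _ hτ2
        apply Nat.mul_le_mul_right
        have g1 : (q + 2) ^ (2 * s + 6) ≤ X := Nat.le_mul_of_pos_left _
          (Nat.pos_of_ne_zero (by positivity))
        have g2 : (6 + q) * (4 * 2) ^ (s + 3) * 2 ^ (s + 3) ≤ X := Nat.le_mul_of_pos_right _
          (Nat.pos_of_ne_zero (by positivity))
        have g3 : X ≤ X * (C₀ * C₁) := Nat.le_mul_of_pos_right _ (Nat.mul_pos hC₀ hC₁1)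
        rw [pow_succ' (X * (C₀ * C₁)) b]
        apply Nat.mul_le_mul (g2.trans g3)
        exact (Nat.pow_le_pow_left (g1.trans g3) _).trans
          (Nat.pow_le_pow_right (hX1.trans g3) hb)

end Pool.Agent.Y424.SP
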