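import Pool.Agent.Y424.SP.Step
import Pool.Agent.Y424.SX.Iter
import Pool.Agent.TH138.NF.Main

/-!
# Protocols with queries
-/

set_option autoImplicit false

namespace Pool.Agent.Y424.SP

open Finset Module
open Pool.Agent.Y424.SX
open Pool.Agent.TH360.SR (SliceRankLE prv prv_le mm mm_spec)
open Pool.Agent.TH138.NF (Protocol askBits run_askBits bits_askBits)

/-- A number-on-the-forehead protocol with queries, for `r + 1` players with outputs in `κ`. At a
node `ask j f P Q` player `j` announces the bit `f y`, which can depend in an arbitrary way on the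
tuple `y` of the `r` vertices that player `j` sees; the protocol is continued with `P` if the
bit is `false` and with `Q` if it is `true`. At a node `query h P` the players are told the value
`h A` of the function `h` with `q` values at the set `A` of all the `r + 1` vertices, and the
protocol is continued with `P (h A)`. At a leaf `out a` the output is `a`. -/
inductive QProtocol (κ : Type) (q r : ℕ) : Type
  | out (a : κ) : QProtocol κ q r
  | ask (j : Fin (r + 1)) (f : (Fin r → ℕ) → Bool) (P Q : QProtocol κ q r) : QProtocol κ q r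
  | query (h : Finset ℕ → Fin q) (P : Fin q → QProtocol κ q r) : QProtocol κ q r

variable {κ : Type} {q r : ℕ}

/-- The output of the protocol if the vertices are `x 0, …, x r` (player `j` sees the tuple
`j.removeNth x`, that is `x` without its entry number `j`). -/
def QProtocol.run : QProtocol κ q r → (Fin (r + 1) → ℕ) → κ
  | .out a, _ => a
  | .ask j f P Q, x => if f (j.removeNth x) then Q.run x else P.run x
  | .query h P, x => (P (h (Finset.univ.image x))).run x

/-- The number of announcements and queries in the worst case. -/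
def QProtocol.steps : QProtocol κ q r → ℕ
  | .out _ => 0
  | .ask _ _ P Q => max P.steps Q.steps + 1
  | .query _ P => (Finset.univ.sup fun i => (P i).steps) + 1

/-- Every queried function has slice rank at most `w` on the subsets of `{0, …, N - 1}`, over some
field, which can depend on the query. -/
def QProtocol.Width (w N : ℕ) : QProtocol κ q r → Prop
  | .out _ => True
  | .ask _ _ P Q => P.Width w N ∧ Q.Width w N
  | .query h P => (∃ (F : Type) (_ : Field F), SliceRankLE F w r N h) ∧ ∀ i, (P i).Width w N

/-- The protocol computes the colours of the `(r + 1)`-subsets of `{0, …, N - 1}`, the vertices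
being listed in increasing order. -/
def QProtocol.Computes (P : QProtocol κ q r) (N : ℕ) (c : Finset ℕ → κ) : Prop :=
  ∀ x : Fin (r + 1) → ℕ, StrictMono x → (∀ i, x i < N) → P.run x = c (Finset.univ.image x)

open Classical in
/-- the queried functions -/
noncomputable def QProtocol.funs : QProtocol κ q r → Finset (Finset ℕ → Fin q)
  | .out _ => ∅
  | .ask _ _ P Q => P.funs ∪ Q.funs
  | .query h P => insert h (Finset.univ.biUnion fun i => (P i).funs)

theorem QProtocol.card_funs (P : QProtocol κ q r) : P.funs.card ≤ (q + 2) ^ P.steps := by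
  classical
  induction P with
  | out a => simp [QProtocol.funs, QProtocol.steps]
  | ask j f P Q hP hQ =>
    simp only [QProtocol.funs, QProtocol.steps]
    have h1 : (q + 2) ^ P.steps ≤ (q + 2) ^ (max P.steps Q.steps) :=
      Nat.pow_le_pow_right (by omega) (le_max_left _ _)
    have h2 : (q + 2) ^ Q.steps ≤ (q + 2) ^ (max P.steps Q.steps) :=
      Nat.pow_le_pow_right (by omega) (le_max_right _ _)
    refine (card_union_le _ _).trans ?_
    rw [pow_succ]
    nlinarith
  | query h P hP =>
    simp only [QProtocol.funs, QProtocol.steps]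
    refine (card_insert_le _ _).trans ?_
    have h1 : (Finset.univ.biUnion fun i => (P i).funs).card ≤
        q * (q + 2) ^ (Finset.univ.sup fun i => (P i).steps) := by
      refine card_biUnion_le.trans ?_
      refine (Finset.sum_le_card_nsmul _ _ ((q + 2) ^ (Finset.univ.sup fun i => (P i).steps))
        (fun i _ => ?_)).trans ?_
      · refine (hP i).trans (Nat.pow_le_pow_right (by omega) ?_)
        exact Finset.le_sup (f := fun i => (P i).steps) (mem_univ i)
      · rw [card_univ, Fintype.card_fin, smul_eq_mul]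
    have h2 : 1 ≤ (q + 2) ^ (Finset.univ.sup fun i => (P i).steps) :=
      Nat.one_le_pow _ _ (by omega)
    rw [pow_succ]
    nlinarith

theorem QProtocol.width_funs {w N : ℕ} {P : QProtocol κ q r} (hP : P.Width w N) :
    ∀ h ∈ P.funs, ∃ (F : Type) (_ : Field F), SliceRankLE F w r N h := by
  classical
  induction P with
  | out a => simp [QProtocol.funs]
  | ask j f P Q h1 h2 =>
    intro h hh
    simp only [QProtocol.funs, mem_union] at hh
    rcases hh with hh | hh
    · exact h1 hP.1 h hh
    · exact h2 hP.2 h hh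
  | query h' P h1 =>
    intro h hh
    simp only [QProtocol.funs, mem_insert, mem_biUnion, mem_univ, true_and] at hh
    rcases hh with rfl | ⟨i, hi⟩
    · exact hP.1
    · exact h1 i (hP.2 i) h hi

/-- several players announce `t` binary digits each -/
def askAll (t : ℕ) : List (Fin (r + 1) × ((Fin r → ℕ) → ℕ)) → (List ℕ → Protocol κ r) →
    Protocol κ r
  | [], C => C []
  | p :: l, C => askBits p.1 p.2 t (fun v => askAll t l (fun vs => C (v :: vs)))

theorem run_askAll (t : ℕ) (x : Fin (r + 1) → ℕ) :
    ∀ (l : List (Fin (r + 1) × ((Fin r → ℕ) → ℕ))) (C : List ℕ → Protocol κ r),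
    (askAll t l C).run x = (C (l.map fun p => p.2 (p.1.removeNth x) % 2 ^ t)).run x := by
  intro l
  induction l with
  | nil => intro C; rfl
  | cons p l ih =>
    intro C
    simp only [askAll, List.map_cons]
    rw [run_askBits, ih]

theorem bits_askAll (t b : ℕ) :
    ∀ (l : List (Fin (r + 1) × ((Fin r → ℕ) → ℕ))) (C : List ℕ → Protocol κ r),
    (∀ vs, (C vs).bits ≤ b) → (askAll t l C).bits ≤ t * l.length + b := by
  intro l
  induction l with
  | nil => intro C hC; simpa [askAll] using hC []
  | cons p l ih =>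
    intro C hC
    simp only [askAll, List.length_cons]
    have h1 := bits_askBits p.1 p.2 (t * l.length + b) t
      (fun v => askAll t l (fun vs => C (v :: vs))) (fun v => ih _ (fun vs => hC _))
    have h2 : t * (l.length + 1) = t + t * l.length := by ring
    omega

/-- the signs -/
def sg {F : Type} [Field F] : Option (Fin 1) → F
  | none => 1
  | some _ => -1

/-- the positions -/
def ZB (y : Fin (r + 1) → ℕ) (i : Fin (r + 1)) (o : Option (Fin 1)) : ℕ :=
  ZZ (w := 0) (fun h => 3 * h + 2) (fun h => 3 * h + 1) (fun h _ => 3 * h) 0 y i o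

theorem ZB_mono {y : Fin (r + 1) → ℕ} (hy : StrictMono y) (α : Fin (r + 1) → Option (Fin 1)) :
    StrictMono (fun i => ZB y i (α i)) := by
  obtain ⟨M, hM⟩ : ∃ M, ∀ i, y i < M := ⟨(univ.sup y) + 1, fun i =>
    Nat.lt_succ_of_le (Finset.le_sup (mem_univ i))⟩
  rw [Fin.strictMono_iff_lt_succ]
  intro i
  have hK : StrictMono (fun h : ℕ => 3 * h + 2) := fun a b hab => by beta_reduce; omega
  have e1 := ZZ_le (w := 0) (K := fun h => 3 * h + 2) (ρ := fun h => 3 * h + 1)
    (y := fun h _ => 3 * h) (j := 0) (M := M) hK (fun s _ _ => by omega)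
    (fun s _ => by omega) hy hM i.castSucc (α i.castSucc)
  have e2 := lt_ZZ (w := 0) (K := fun h => 3 * h + 2) (ρ := fun h => 3 * h + 1)
    (y := fun h _ => 3 * h) (j := 0) (M := M) hK (fun s _ _ => by omega)
    (fun h s hs _ _ => by omega) hy hM i (α i.succ)
  exact lt_of_le_of_lt e1 e2

theorem ZB_lt {y : Fin (r + 1) → ℕ} (hy : StrictMono y) {M : ℕ} (hM : ∀ i, y i < M)
    (i : Fin (r + 1)) (o : Option (Fin 1)) : ZB y i o < 3 * M := by
  have hK : StrictMono (fun h : ℕ => 3 * h + 2) := fun a b hab => by beta_reduce; omega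
  have e1 := ZZ_le (w := 0) (K := fun h => 3 * h + 2) (ρ := fun h => 3 * h + 1)
    (y := fun h _ => 3 * h) (j := 0) (M := M) hK (fun s _ _ => by omega)
    (fun s _ => by omega) hy hM i o
  have e2 := hM i
  show ZZ (w := 0) (fun h => 3 * h + 2) (fun h => 3 * h + 1) (fun h _ => 3 * h) 0 y i o < 3 * M
  omega

/-- A function which is a sum of functions of `r` of the coordinates: an alternating sum
vanishes. -/
theorem alt_sum {F : Type} [Field F] {w N : ℕ} {Φ : ℕ → Fin (w + 1) → F}
    {T : (Fin (r + 1) → ℕ) → F} {g : Fin (r + 1) → Fin (w + 1) → (Fin r → ℕ) → F}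
    (hT : Rep univ Φ (3 * N) T g) {y : Fin (r + 1) → ℕ} (hy : StrictMono y)
    (hN : ∀ i, y i < N) :
    ∑ α : Fin (r + 1) → Option (Fin 1), (∏ i, (sg (α i) : F)) * T (fun i => ZB y i (α i)) = 0 := by
  have h1 : ∀ α : Fin (r + 1) → Option (Fin 1), T (fun i => ZB y i (α i)) =
      ∑ m, ∑ t, fam univ Φ m t (ZB y m (α m)) * g m t (m.removeNth (fun i => ZB y i (α i))) :=
    fun α => hT _ (ZB_mono hy α) (fun i => ZB_lt hy hN i _)
  rw [Finset.sum_congr rfl (fun α _ => by rw [h1 α])]
  rw [expand (fun m t v => fam univ Φ m t v) g (fun i o => ZB y i o) (fun _ o => (sg o : F))]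
  refine Finset.sum_eq_zero fun m _ => Finset.sum_eq_zero fun t _ => ?_
  have h2 : ∑ o : Option (Fin 1), (sg o : F) * fam univ Φ m t (ZB y m o) = 0 := by
    rw [Fintype.sum_option]
    by_cases ht : t = 0
    · simp [sg, fam, ht]
    · simp [sg, fam, ht]
  rw [h2, zero_mul]

/-- A query to a function which is a sum of functions of `r` coordinates can be replaced by
announcements. -/
theorem simul {F : Type} [Field F] {w M : ℕ} (a : Fin q → F) (ha : Function.Injective a)
    (h : Finset ℕ → Fin q) (Φ : ℕ → Fin (w + 1) → F)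
    (g : Fin (r + 1) → Fin (w + 1) → (Fin r → ℕ) → F)
    (hT : Rep univ Φ (3 * M) (fun x => a (h (univ.image x))) g) (b : ℕ)
    (C : Fin q → Protocol κ r) (hC : ∀ i, (C i).bits ≤ b) :
    ∃ P : Protocol κ r, P.bits ≤ q * 2 ^ (r + 1) + b ∧
      ∀ y : Fin (r + 1) → ℕ, StrictMono y → (∀ i, y i < M) →
        P.run y = (C (h (univ.image fun i => 3 * y i + 2))).run y := by
  classical
  -- the values which are announced
  let val : (Fin (r + 1) → Option (Fin 1)) → (Fin r → ℕ) → ℕ := fun α η =>
    (h (univ.image fun i => ZB ((mm α).insertNth 0 η : Fin (r + 1) → ℕ) i (α i)) : ℕ)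
  let A := (univ.erase (fun _ : Fin (r + 1) => (none : Option (Fin 1)))).toList
  let l : List (Fin (r + 1) × ((Fin r → ℕ) → ℕ)) := A.map fun α => (mm α, val α)
  have hval : ∀ α, α ≠ (fun _ => none) → ∀ y : Fin (r + 1) → ℕ,
      val α ((mm α).removeNth y) = (h (univ.image fun i => ZB y i (α i)) : ℕ) := by
    intro α hα y
    have h1 := ZZ_indep (w := 0) (K := fun h => 3 * h + 2) (ρ := fun h => 3 * h + 1)
      (y := fun h _ => 3 * h) (j := 0) y α hα 0
    have h2 : (fun i => ZB y i (α i)) =
        fun i => ZB ((mm α).insertNth 0 ((mm α).removeNth y) : Fin (r + 1) → ℕ) i (α i) := h1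
    simp only [val]
    rw [← h2]
  have hlist : ∀ y : Fin (r + 1) → ℕ, (l.map fun p => p.2 (p.1.removeNth y) % 2 ^ q) =
      A.map fun α => (h (univ.image fun i => ZB y i (α i)) : ℕ) := by
    intro y
    simp only [l, List.map_map]
    apply List.map_congr_left
    intro α hα
    have hα' : α ≠ (fun _ => none) := (mem_erase.1 (Finset.mem_toList.1 hα)).1
    simp only [Function.comp]
    rw [hval α hα' y]
    apply Nat.mod_eq_of_lt
    exact lt_trans (Fin.is_lt _) Nat.lt_two_pow_self
  -- decoding
  have hdec : ∀ y y' : Fin (r + 1) → ℕ, StrictMono y → StrictMono y' → (∀ i, y i < M) →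
      (∀ i, y' i < M) → (A.map fun α => (h (univ.image fun i => ZB y i (α i)) : ℕ)) =
      (A.map fun α => (h (univ.image fun i => ZB y' i (α i)) : ℕ)) →
      h (univ.image fun i => 3 * y i + 2) = h (univ.image fun i => 3 * y' i + 2) := by
    intro y y' hy hy' hM hM' he
    have h1 := alt_sum hT hy hM
    have h2 := alt_sum hT hy' hM'
    rw [← Finset.add_sum_erase _ _ (mem_univ (fun _ : Fin (r + 1) =>
      (none : Option (Fin 1))))] at h1 h2
    have h3 : ∀ α ∈ univ.erase (fun _ : Fin (r + 1) => (none : Option (Fin 1))),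
        (∏ i, (sg (α i) : F)) * a (h (univ.image fun i => ZB y i (α i))) =
        (∏ i, (sg (α i) : F)) * a (h (univ.image fun i => ZB y' i (α i))) := by
      intro α hα
      have h4 := List.map_inj_left.1 he α (Finset.mem_toList.2 hα)
      rw [Fin.val_inj] at h4
      rw [h4]
    rw [Finset.sum_congr rfl h3] at h1
    have h5 := h1.trans h2.symm
    rw [add_left_inj] at h5
    have h6 : ∏ i : Fin (r + 1), (sg (none : Option (Fin 1)) : F) = 1 :=
      Finset.prod_eq_one fun i _ => rfl
    rw [h6, one_mul, one_mul] at h5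
    exact ha h5
  by_cases hex : ∃ y : Fin (r + 1) → ℕ, StrictMono y ∧ ∀ i, y i < M
  swap
  · push Not at hex
    have hq : 0 < q := lt_of_le_of_lt (Nat.zero_le _) (h ∅).is_lt
    refine ⟨C ⟨0, hq⟩, (hC _).trans (Nat.le_add_left _ _), fun y hy hM => ?_⟩
    obtain ⟨i, hi⟩ := hex y hy
    exact absurd (hM i) (not_lt.2 hi)
  obtain ⟨y₀, -, -⟩ := hex
  let dec : List ℕ → Fin q := fun vs =>
    if hvs : ∃ y : Fin (r + 1) → ℕ, (StrictMono y ∧ ∀ i, y i < M) ∧
      (A.map fun α => (h (univ.image fun i => ZB y i (α i)) : ℕ)) = vs then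
      h (univ.image fun i => 3 * hvs.choose i + 2) else h ∅
  refine ⟨askAll q l (fun vs => C (dec vs)), ?_, ?_⟩
  · refine (bits_askAll q b l _ (fun vs => hC _)).trans ?_
    apply Nat.add_le_add_right
    apply Nat.mul_le_mul_left
    simp only [l, A, List.length_map, Finset.length_toList]
    rw [card_erase_of_mem (mem_univ _), card_univ]
    simp
  · intro y hy hM
    rw [run_askAll, hlist]
    have hvs : ∃ y' : Fin (r + 1) → ℕ, (StrictMono y' ∧ ∀ i, y' i < M) ∧
      (A.map fun α => (h (univ.image fun i => ZB y' i (α i)) : ℕ)) =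
      (A.map fun α => (h (univ.image fun i => ZB y i (α i)) : ℕ)) := ⟨y, ⟨hy, hM⟩, rfl⟩
    have h1 : dec (A.map fun α => (h (univ.image fun i => ZB y i (α i)) : ℕ)) =
        h (univ.image fun i => 3 * y i + 2) := by
      simp only [dec]
      rw [dif_pos hvs]
      exact hdec _ _ hvs.choose_spec.1.1 hy hvs.choose_spec.1.2 hM hvs.choose_spec.2
    rw [h1]

end Pool.Agent.Y424.SP
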