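import Pool.Agent.Y424.SP.Types

/-!
# Elimination of the slices at one coordinate, for several functions at the same time
-/

set_option autoImplicit false

namespace Pool.Agent.Y424.SP

open Finset Module
open Pool.Agent.Y424.SX
open Pool.Agent.TH360.SR (refs prv prv_le mm mm_spec)

variable {k w : ℕ} {ι : Type} [Fintype ι] {F : ι → Type} [∀ v, Field (F v)]

/-- The slices at coordinate `j` are eliminated. -/
theorem step {κ : Type} [Fintype κ] (a : ∀ v, κ → F v) (c : ι → Finset ℕ → κ)
    (D : Finset (Fin (k + 1))) (Φ : ∀ v, ℕ → Fin (w + 1) → F v)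
    (g : ∀ v, Fin (k + 1) → Fin (w + 1) → (Fin k → ℕ) → F v) (j : Fin (k + 1)) (hj : j ∉ D)
    (N M : ℕ) (hM : 1 ≤ M)
    (hT : ∀ v, Rep D (Φ v) N (fun x => a v (c v (univ.image x))) (g v))
    (hN : (4 * M * (Fintype.card κ ^ ((w + 1) * (w + 2) ^ k)) ^ Fintype.card ι) ^
      (Fintype.card ι * (2 * w + 2) + 1) ≤ N) :
    ∃ K : ℕ → ℕ, StrictMono K ∧ (∀ h < M, K h < N) ∧
      ∀ v, ∃ g', Rep (insert j D) (fun h => Φ v (K h)) M
        (fun x => a v (c v (univ.image fun i => K (x i)))) g' := by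
  classical
  obtain ⟨A, L, M₂, σ, hL, hσ, hσM, hAN, hst, hty⟩ := types a c D Φ g j hj N M hM hT hN
  have hex : ∀ v s, ∃ (y : Fin (w + 1) → ℕ) (b : Fin (w + 1) → (Fin (w + 1) → F v) →ₗ[F v] F v),
      (∀ l, y l ∈ Set.Ico (A + (2 * σ (2 * s)) * L) (A + (2 * σ (2 * s) + 1) * L)) ∧
      ∀ x ∈ Submodule.span (F v)
        (Φ v '' Set.Ico (A + (2 * σ (2 * s)) * L) (A + (2 * σ (2 * s) + 1) * L)),
        ∑ l, b l x • Φ v (y l) = x := by
    intro v s
    apply refs
    refine ⟨A + (2 * σ (2 * s)) * L, ?_⟩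
    simp only [Set.mem_Ico, le_refl, true_and]
    have : (2 * σ (2 * s) + 1) * L = (2 * σ (2 * s)) * L + L := by ring
    omega
  choose y b hy hb using hex
  set K : ℕ → ℕ := fun h => A + (2 * σ (2 * h + 1) + 1) * L with hKdef
  set ρ : ℕ → ℕ := fun h => A + (2 * σ (2 * h) + 1) * L with hρdef
  have hblock : ∀ x z : ℕ, x < z → A + x * L < A + z * L := fun x z hxz => by
    have := Nat.mul_lt_mul_of_pos_right hxz hL
    omega
  have hblock' : ∀ x z : ℕ, x ≤ z → A + x * L ≤ A + z * L := fun x z hxz => by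
    have := Nat.mul_le_mul_right L hxz
    omega
  have hK : StrictMono K := by
    intro h h' hh
    have := hσ (show 2 * h + 1 < 2 * h' + 1 by omega)
    exact hblock _ _ (by omega)
  have hKN : ∀ h < M, K h < N := by
    intro h hh
    exact lt_of_lt_of_le (hblock _ _ (hσM (2 * h + 1) (by omega))) hAN
  have h1 : ∀ v, ∀ s < M, ∀ l, y v s l < ρ s := fun v s _ l => (hy v s l).2
  have h1' : ∀ s < M, ρ s < K s := by
    intro s _
    have := hσ (show 2 * s < 2 * s + 1 by omega)
    exact hblock _ _ (by omega)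
  have h2 : ∀ v, ∀ h s, h < s → s < M → ∀ l, K h < y v s l := by
    intro v h s hhs _ l
    have := hσ (show 2 * h + 1 < 2 * s by omega)
    exact lt_of_lt_of_le (hblock _ _ (by omega)) (hy v s l).1
  have hbΦ : ∀ v, ∀ s < M, ∀ h < M, ∑ l, b v s l (Φ v (K h)) • Φ v (y v s l) = Φ v (K h) := by
    intro v s hs h hh
    apply hb
    have e := (hst (2 * σ (2 * s)) (by have := hσM (2 * s) (by omega); omega) v).1
    rw [e]
    apply Submodule.subset_span
    refine ⟨_, ?_, rfl⟩
    simp only [Set.mem_Ico]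
    exact ⟨Nat.le_add_right _ _, hblock _ _ (hσM (2 * h + 1) (by omega))⟩
  refine ⟨K, hK, hKN, fun v => ?_⟩
  have hρK : ∀ s s', s < s' → ρ s + L ≤ K s' := by
    intro s s' hss
    have h3 := hσ (show 2 * s < 2 * s' + 1 by omega)
    have h4 : ρ s + L = A + (2 * σ (2 * s) + 2) * L := by
      simp only [hρdef]
      ring
    rw [h4]
    exact hblock' _ _ (by omega)
  have hρy : ∀ s s', s < s' → ∀ l, ρ s + L ≤ y v s' l := by
    intro s s' hss l
    have h3 := hσ (show 2 * s < 2 * s' by omega)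
    have h4 : ρ s + L = A + (2 * σ (2 * s) + 2) * L := by
      simp only [hρdef]
      ring
    rw [h4]
    exact (hblock' _ _ (by omega)).trans (hy v s' l).1
  refine rep_of_sum (insert j D) (b v) (fun h => Φ v (K h)) (fun x => a v (c v (univ.image x)))
    K ρ (y v) j M ?_
  intro h hh hhM
  have hfs := full_split (fun x => a v (c v (univ.image x))) j (ZZ K ρ (y v) j h)
    (uu (insert j D) (b v) (fun h => Φ v (K h)) h)
  refine hfs.trans ?_
  -- the environment
  have hkill : Kill D (Φ v) j (fun i => ZZ K ρ (y v) j h (j.succAbove i))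
      (fun i => uu (insert j D) (b v) (fun h => Φ v (K h)) h (j.succAbove i)) := by
    intro i t
    beta_reduce
    have hne : j.succAbove i ≠ j := Fin.succAbove_ne _ _
    have hp : prv h (j.succAbove i) < M := lt_of_le_of_lt (prv_le hh _) (hhM _)
    have hnone : uu (insert j D) (b v) (fun h => Φ v (K h)) h (j.succAbove i) none = 1 := rfl
    rw [Fintype.sum_option, hnone]
    by_cases hD : j.succAbove i ∈ D
    · simp only [uu_mem (b v) _ h (mem_insert_of_mem hD), fam, if_pos hD]
      by_cases ht : t = 0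
      · simp [ht]
      · simp [ht]
    · have hD' : j.succAbove i ∉ insert j D := by
        rw [mem_insert]
        push Not
        exact ⟨hne, hD⟩
      simp only [uu_not (b v) _ h hD', fam, if_neg hD, ZZ, if_neg hne, one_mul]
      have h6 := congrFun (hbΦ v _ hp (h (j.succAbove i)) (hhM _)) t
      rw [Finset.sum_apply] at h6
      simp only [Pi.smul_apply, smul_eq_mul] at h6
      conv_lhs => rw [← h6]
      rw [← Finset.sum_add_distrib]
      exact Finset.sum_eq_zero fun l _ => by ring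
  have hp : prv h j < M := lt_of_le_of_lt (prv_le hh _) (hhM _)
  have hgood1 : Good j N (fun i => ZZ K ρ (y v) j h (j.succAbove i)) (K (h j)) := by
    refine good_gen hK hKN (h1 v) h1' (h2 v) hh hhM _ (hKN _ (hhM _)) ?_ ?_
    · intro i hi
      rw [← hi]
      exact hK (hh Fin.castSucc_lt_succ)
    · intro i hi o
      rw [← hi]
      exact lt_ZZ hK (h1 v) (h2 v) hh hhM i o
  have hgood2 : ∀ x, ρ (prv h j) ≤ x → x < ρ (prv h j) + L →
      Good j N (fun i => ZZ K ρ (y v) j h (j.succAbove i)) x := by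
    intro x hx hx'
    refine good_gen hK hKN (h1 v) h1' (h2 v) hh hhM _ ?_ ?_ ?_
    · have h3 := hσM (2 * prv h j) (by omega)
      have h4 : ρ (prv h j) + L = A + (2 * σ (2 * prv h j) + 2) * L := by
        simp only [hρdef]
        ring
      have h5 := hblock' (2 * σ (2 * prv h j) + 2) M₂ (by omega)
      omega
    · intro i hi
      have h3 : prv h j = h i.castSucc + 1 := by
        rw [← hi]
        simp only [prv, Fin.cons_succ]
      have h4 := h2 v (h i.castSucc) (prv h j) (by omega) hp 0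
      have h5 := h1 v (prv h j) hp 0
      omega
    · intro i hi o
      have h3 : prv h i.succ = h i.castSucc + 1 := by
        simp only [prv, Fin.cons_succ]
      have h4 : prv h j ≤ h i.castSucc := by
        rw [hi]
        exact prv_le hh j
      have hij : i.succ ≠ j := by
        rw [← hi]
        exact Fin.castSucc_lt_succ.ne'
      have h5 : h i.castSucc < h i.succ := hh Fin.castSucc_lt_succ
      cases o with
      | none =>
        have := hρK (prv h j) (h i.succ) (by omega)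
        simp only [ZZ]
        omega
      | some l =>
        have := hρy (prv h j) (prv h i.succ) (by omega) l
        simp only [ZZ, if_neg hij]
        omega
  have hU : Us (fun x => a v (c v (univ.image x))) j (K (h j))
      (fun i => ZZ K ρ (y v) j h (j.succAbove i))
      (fun i => uu (insert j D) (b v) (fun h => Φ v (K h)) h (j.succAbove i)) =
      Us (fun x => a v (c v (univ.image x))) j (ρ (prv h j))
      (fun i => ZZ K ρ (y v) j h (j.succAbove i))
      (fun i => uu (insert j D) (b v) (fun h => Φ v (K h)) h (j.succAbove i)) := by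
    rw [us_eq' (hT v) hj hkill hgood1, us_eq' (hT v) hj hkill (hgood2 _ le_rfl (by omega))]
    refine hty v (2 * h j + 1) (2 * prv h j) (by have := hhM j; omega) (by omega) _ ?_
    have e := (hst (2 * σ (2 * prv h j) + 1) (hσM _ (by omega)) v).2
    rw [← e]
    apply Submodule.subset_span
    refine ⟨_, _, hkill, ?_, rfl⟩
    intro x hx hx'
    apply hgood2 x hx
    have h4 : ρ (prv h j) + L = A + (2 * σ (2 * prv h j) + 1 + 1) * L := by
      simp only [hρdef]
      ring
    omega
  rw [Fintype.sum_option]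
  have hj' : j ∈ insert j D := mem_insert_self _ _
  simp only [uu_mem (b v) _ h hj']
  have e1 : ZZ K ρ (y v) j h j none = K (h j) := rfl
  have e2 : ∀ l, ZZ K ρ (y v) j h j (some l) = ρ (prv h j) := fun l => by simp [ZZ]
  have e3 : uu (insert j D) (b v) (fun h => Φ v (K h)) h j none = 1 := rfl
  rw [e1, e3, hU]
  simp only [e2]
  simp

/-- the numbers of vertices needed for `n` steps -/
def LL (E Q M : ℕ) : ℕ → ℕ
  | 0 => M
  | n + 1 => (4 * LL E Q M n * Q) ^ E

theorem LL_pos (E Q M : ℕ) (hM : 1 ≤ M) (hQ : 1 ≤ Q) : ∀ n, 1 ≤ LL E Q M n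
  | 0 => hM
  | n + 1 => by
    have := LL_pos E Q M hM hQ n
    exact Nat.one_le_pow _ _ (Nat.one_le_iff_ne_zero.2 (by positivity))

theorem LL_le (E Q M : ℕ) (hM : 1 ≤ M) (hQ : 1 ≤ Q) (hE : 1 ≤ E) : ∀ n,
    LL E Q M n ≤ (4 * M * Q) ^ ((2 * E) ^ n)
  | 0 => by
    show M ≤ (4 * M * Q) ^ ((2 * E) ^ 0)
    rw [pow_zero, pow_one]
    nlinarith [Nat.mul_le_mul_left (4 * M) hQ]
  | n + 1 => by
    have ih := LL_le E Q M hM hQ hE n
    show (4 * LL E Q M n * Q) ^ E ≤ (4 * M * Q) ^ ((2 * E) ^ (n + 1))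
    have hpos : 1 ≤ (2 * E) ^ n := Nat.one_le_pow _ _ (by omega)
    have hbase : 1 ≤ 4 * M * Q := Nat.one_le_iff_ne_zero.2 (by positivity)
    have h1 : 4 * LL E Q M n * Q ≤ (4 * M * Q) ^ ((2 * E) ^ n + 1) := by
      calc 4 * LL E Q M n * Q ≤ 4 * (4 * M * Q) ^ ((2 * E) ^ n) * Q :=
            Nat.mul_le_mul_right _ (Nat.mul_le_mul_left _ ih)
        _ = (4 * M * Q) ^ ((2 * E) ^ n) * (4 * 1 * Q) := by ring
        _ ≤ (4 * M * Q) ^ ((2 * E) ^ n) * (4 * M * Q) :=
            Nat.mul_le_mul_left _ (Nat.mul_le_mul_right _ (Nat.mul_le_mul_left _ hM))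
        _ = _ := by rw [pow_succ]
    calc (4 * LL E Q M n * Q) ^ E ≤
        ((4 * M * Q) ^ ((2 * E) ^ n + 1)) ^ E := Nat.pow_le_pow_left h1 _
      _ = (4 * M * Q) ^ (((2 * E) ^ n + 1) * E) := by rw [← pow_mul]
      _ ≤ (4 * M * Q) ^ ((2 * E) ^ (n + 1)) := by
          apply Nat.pow_le_pow_right hbase
          rw [pow_succ]
          nlinarith

/-- All slices are eliminated. -/
theorem iterate {κ : Type} [Fintype κ] (a : ∀ v, κ → F v) : ∀ (n : ℕ) (c : ι → Finset ℕ → κ)
    (D : Finset (Fin (k + 1))) (Φ : ∀ v, ℕ → Fin (w + 1) → F v) (N M : ℕ), 1 ≤ M →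
    (univ \ D).card = n →
    (∀ v, ∃ g, Rep D (Φ v) N (fun x => a v (c v (univ.image x))) g) →
    LL (Fintype.card ι * (2 * w + 2) + 1)
      ((Fintype.card κ ^ ((w + 1) * (w + 2) ^ k)) ^ Fintype.card ι) M n ≤ N →
    ∃ K : ℕ → ℕ, StrictMono K ∧ (∀ h < M, K h < N) ∧ ∀ v, ∃ (Φ' : ℕ → Fin (w + 1) → F v)
      (g' : Fin (k + 1) → Fin (w + 1) → (Fin k → ℕ) → F v), Rep univ Φ' M
        (fun x => a v (c v (univ.image fun i => K (x i)))) g' := by
  classical
  intro n
  induction n with
  | zero =>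
    intro c D Φ N M hM hD hg hN
    have hD' : D = univ := by
      rw [card_eq_zero, sdiff_eq_empty_iff_subset] at hD
      exact eq_univ_iff_forall.2 fun x => hD (mem_univ x)
    subst hD'
    refine ⟨id, strictMono_id, fun h hh => lt_of_lt_of_le hh hN, fun v => ?_⟩
    obtain ⟨g, hg⟩ := hg v
    refine ⟨Φ v, g, ?_⟩
    intro x hx hxM
    exact hg x hx (fun i => lt_of_lt_of_le (hxM i) hN)
  | succ n ih =>
    intro c D Φ N M hM hD hg hN
    have hQ : 1 ≤ (Fintype.card κ ^ ((w + 1) * (w + 2) ^ k)) ^ Fintype.card ι := by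
      rcases isEmpty_or_nonempty ι with h | ⟨⟨v⟩⟩
      · simp
      · exact Nat.one_le_pow _ _ (Nat.one_le_pow _ _ (Fintype.card_pos_iff.2 ⟨c v ∅⟩))
    obtain ⟨j, hj⟩ : ∃ j, j ∈ univ \ D := by
      rw [← Finset.nonempty_def, ← card_pos]
      omega
    have hjD : j ∉ D := (mem_sdiff.1 hj).2
    choose g hg using hg
    obtain ⟨K₁, hK₁, hK₁N, hg₁⟩ := step a c D Φ g j hjD N
      (LL (Fintype.card ι * (2 * w + 2) + 1)
        ((Fintype.card κ ^ ((w + 1) * (w + 2) ^ k)) ^ Fintype.card ι) M n)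
      (LL_pos _ _ _ hM hQ n) hg hN
    have hcard : (univ \ insert j D).card = n := by
      have e : univ \ insert j D = (univ \ D).erase j := by
        ext x
        simp only [mem_sdiff, mem_univ, true_and, mem_insert, mem_erase]
        tauto
      rw [e, card_erase_of_mem hj, hD]
      rfl
    have himg : ∀ (K : ℕ → ℕ) (x : Fin (k + 1) → ℕ), (univ.image x).image K =
        univ.image fun i => K (x i) := by
      intro K x
      rw [image_image]
      rfl
    obtain ⟨K₂, hK₂, hK₂N, hg'⟩ := ih (fun v S => c v (S.image K₁)) (insert j D)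
      (fun v h => Φ v (K₁ h)) _ M hM hcard (fun v => by
        obtain ⟨g₁, hg₁⟩ := hg₁ v
        refine ⟨g₁, ?_⟩
        intro x hx hxM
        beta_reduce
        rw [himg]
        exact hg₁ x hx hxM) le_rfl
    refine ⟨fun h => K₁ (K₂ h), hK₁.comp hK₂, fun h hh => hK₁N _ (hK₂N h hh), fun v => ?_⟩
    obtain ⟨Φ', g', hg'⟩ := hg' v
    refine ⟨Φ', g', ?_⟩
    intro x hx hxM
    have h1 := hg' x hx hxM
    beta_reduce at h1 ⊢
    rw [image_image] at h1
    exact h1

end Pool.Agent.Y424.SP
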