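import Pool.Agent.Y424.SX.StepB

/-!
# Several functions at the same time
-/

set_option autoImplicit false

namespace Pool.Agent.Y424.SP

open Finset Module
open Pool.Agent.Y424.SX

variable {k w : ℕ} {ι : Type} [Fintype ι] {F : ι → Type} [∀ v, Field (F v)]

/-- Blocks on which the functions `Φ v` and the environments have the same spans. -/
theorem stable (D : Finset (Fin (k + 1))) (Φ : ∀ v, ℕ → Fin (w + 1) → F v)
    (g : ∀ v, Fin (k + 1) → Fin (w + 1) → (Fin k → ℕ) → F v) (j : Fin (k + 1)) (N M : ℕ)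
    (hM : 1 ≤ M) (hN : M ^ (Fintype.card ι * (2 * w + 2) + 1) ≤ N) :
    ∃ a L, 1 ≤ L ∧ a + M * L ≤ N ∧ ∀ h < M, ∀ v,
      Submodule.span (F v) (Φ v '' Set.Ico (a + h * L) (a + (h + 1) * L)) =
        Submodule.span (F v) (Φ v '' Set.Ico a (a + M * L)) ∧
      Submodule.span (F v) (Env D (Φ v) (g v) j N (a + h * L) (a + (h + 1) * L)) =
        Submodule.span (F v) (Env D (Φ v) (g v) j N a (a + M * L)) := by
  have hr : ∀ v, ∀ S : Submodule (F v) (Fin (w + 1) → F v), finrank (F v) S ≤ w + 1 := by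
    intro v S
    have h1 := Submodule.finrank_le S
    rw [Module.finrank_fin_fun] at h1
    exact h1
  have hm1 : ∀ v, ∀ a b a' b' : ℕ, a ≤ a' → b' ≤ b →
      Submodule.span (F v) (Φ v '' Set.Ico a' b') ≤
      Submodule.span (F v) (Φ v '' Set.Ico a b) := by
    intro v a b a' b' h1 h2
    apply Submodule.span_mono
    apply Set.image_mono
    intro x hx
    simp only [Set.mem_Ico] at hx ⊢
    omega
  have hm2 : ∀ v, ∀ a b a' b' : ℕ, a ≤ a' → b' ≤ b →
      Submodule.span (F v) (Env D (Φ v) (g v) j N a b) ≤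
      Submodule.span (F v) (Env D (Φ v) (g v) j N a' b') :=
    fun v a b a' b' h1 h2 =>
      Submodule.span_mono (Env_anti D (Φ v) (g v) j N a b a' b' h1 h2)
  let μ : ι → ℕ → ℕ → ℕ := fun v a b => finrank (F v)
    (Submodule.span (F v) (Φ v '' Set.Ico a b)) +
      (w + 1 - finrank (F v) (Submodule.span (F v) (Env D (Φ v) (g v) j N a b)))
  have hμ : ∀ v a b a' b', a ≤ a' → b' ≤ b → μ v a' b' ≤ μ v a b := by
    intro v a b a' b' h1 h2
    have h3 := Submodule.finrank_mono (hm1 v a b a' b' h1 h2)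
    have h4 := Submodule.finrank_mono (hm2 v a b a' b' h1 h2)
    simp only [μ]
    omega
  obtain ⟨a, L, -, hL, hle, hst⟩ := blocks (fun a b => ∑ v, μ v a b) (by
      intro a b a' b' h1 h2
      exact Finset.sum_le_sum fun v _ => hμ v a b a' b' h1 h2) M hM
      (Fintype.card ι * (2 * w + 2)) 0 (by
      have h3 : ∀ v ∈ (univ : Finset ι),
          μ v 0 (0 + M ^ (Fintype.card ι * (2 * w + 2) + 1)) ≤ 2 * w + 2 := by
        intro v _
        have h3 := hr v (Submodule.span (F v)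
          (Φ v '' Set.Ico 0 (0 + M ^ (Fintype.card ι * (2 * w + 2) + 1))))
        simp only [μ]
        omega
      have h4 := Finset.sum_le_card_nsmul _ _ _ h3
      rw [card_univ, smul_eq_mul] at h4
      exact h4)
  refine ⟨a, L, hL, ?_, fun h hh v => ?_⟩
  · rw [zero_add] at hle
    omega
  · have h0 : (h + 1) * L ≤ M * L := Nat.mul_le_mul_right _ hh
    have h1 := hst h hh
    have h1' : μ v (a + h * L) (a + (h + 1) * L) = μ v a (a + M * L) :=
      (Finset.sum_eq_sum_iff_of_le (fun v _ => hμ v a (a + M * L) (a + h * L)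
        (a + (h + 1) * L) (by omega) (by omega))).1 h1 v (mem_univ v)
    simp only [μ] at h1'
    have h3 := Submodule.finrank_mono (hm1 v a (a + M * L) (a + h * L) (a + (h + 1) * L)
      (by omega) (by omega))
    have h4 := Submodule.finrank_mono (hm2 v a (a + M * L) (a + h * L) (a + (h + 1) * L)
      (by omega) (by omega))
    have h5 := hr v (Submodule.span (F v) (Env D (Φ v) (g v) j N (a + h * L) (a + (h + 1) * L)))
    constructor
    · apply Submodule.eq_of_le_of_finrank_eq (hm1 v _ _ _ _ (by omega) (by omega))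
      omega
    · symm
      apply Submodule.eq_of_le_of_finrank_eq (hm2 v _ _ _ _ (by omega) (by omega))
      omega

/-- Vertices of the same type. -/
theorem types {κ : Type} [Fintype κ] (a : ∀ v, κ → F v) (c : ι → Finset ℕ → κ)
    (D : Finset (Fin (k + 1))) (Φ : ∀ v, ℕ → Fin (w + 1) → F v)
    (g : ∀ v, Fin (k + 1) → Fin (w + 1) → (Fin k → ℕ) → F v) (j : Fin (k + 1)) (hj : j ∉ D)
    (N M : ℕ) (hM : 1 ≤ M)
    (hT : ∀ v, Rep D (Φ v) N (fun x => a v (c v (univ.image x))) (g v))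
    (hN : (4 * M * (Fintype.card κ ^ ((w + 1) * (w + 2) ^ k)) ^ Fintype.card ι) ^
      (Fintype.card ι * (2 * w + 2) + 1) ≤ N) :
    ∃ (A L M₂ : ℕ) (σ : ℕ → ℕ), 1 ≤ L ∧ StrictMono σ ∧ (∀ i < 2 * M, 2 * σ i + 1 < M₂) ∧
      A + M₂ * L ≤ N ∧
      (∀ h < M₂, ∀ v, Submodule.span (F v) (Φ v '' Set.Ico (A + h * L) (A + (h + 1) * L)) =
        Submodule.span (F v) (Φ v '' Set.Ico A (A + M₂ * L)) ∧
      Submodule.span (F v) (Env D (Φ v) (g v) j N (A + h * L) (A + (h + 1) * L)) =
        Submodule.span (F v) (Env D (Φ v) (g v) j N A (A + M₂ * L))) ∧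
      ∀ v, ∀ i i', i < 2 * M → i' < 2 * M →
        ∀ γ ∈ Submodule.span (F v) (Env D (Φ v) (g v) j N A (A + M₂ * L)),
        ∑ t, Φ v (A + (2 * σ i + 1) * L) t * γ t = ∑ t, Φ v (A + (2 * σ i' + 1) * L) t * γ t := by
  classical
  set Q := Fintype.card κ ^ ((w + 1) * (w + 2) ^ k) with hQ
  have hq : ∀ _ : ι, 1 ≤ Fintype.card κ := fun v => Fintype.card_pos_iff.2 ⟨c v ∅⟩
  have hQ1 : 1 ≤ Q ^ Fintype.card ι := by
    rcases isEmpty_or_nonempty ι with h | ⟨⟨v⟩⟩
    · simp
    · exact Nat.one_le_pow _ _ (Nat.one_le_pow _ _ (hq v))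
  obtain ⟨A, L, hL, hle, hst⟩ := stable D Φ g j N (4 * M * Q ^ Fintype.card ι) (by
    have : 1 ≤ M * Q ^ Fintype.card ι := Nat.one_le_iff_ne_zero.2 (by positivity)
    nlinarith) hN
  have hbas := fun v => env_basis D (Φ v) (g v) j N A (A + 4 * M * Q ^ Fintype.card ι * L)
  choose d hd ζ u hk hg hsp using hbas
  let typ : ℕ → (∀ v, Fin (d v) → (Fin k → Option (Fin (w + 1))) → κ) := fun h v i β =>
    c v (univ.image (j.insertNth (A + (2 * h + 1) * L) (fun i' => ζ v i i' (β i')) :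
      Fin (k + 1) → ℕ))
  have hcard : Fintype.card (∀ v, Fin (d v) → (Fin k → Option (Fin (w + 1))) → κ) ≤
      Q ^ Fintype.card ι := by
    rw [Fintype.card_pi]
    refine (Finset.prod_le_pow_card _ _ Q fun v _ => ?_).trans_eq (by rw [card_univ])
    simp only [Fintype.card_fun, Fintype.card_fin, Fintype.card_option]
    rw [← pow_mul, hQ]
    apply Nat.pow_le_pow_right (hq v)
    rw [mul_comm]
    exact Nat.mul_le_mul_right _ (hd v)
  obtain ⟨τ, -, hτ⟩ := exists_le_card_fiber_of_mul_le_card_of_maps_to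
    (s := range (2 * M * Q ^ Fintype.card ι))
    (t := (univ : Finset (∀ v, Fin (d v) → (Fin k → Option (Fin (w + 1))) → κ))) (f := typ)
    (n := 2 * M)
    (fun _ _ => mem_univ _) (univ_nonempty_iff.2 ⟨fun v _ _ => c v ∅⟩) (by
      rw [card_univ, card_range, mul_comm]
      exact Nat.mul_le_mul_left _ hcard)
  obtain ⟨σ, hσ, hσ'⟩ := enum ((range (2 * M * Q ^ Fintype.card ι)).filter (fun h => typ h = τ))
  have hσ1 : ∀ i < 2 * M, σ i < 2 * M * Q ^ Fintype.card ι ∧ typ (σ i) = τ := by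
    intro i hi
    have := mem_filter.1 (hσ' i (lt_of_lt_of_le hi hτ))
    exact ⟨mem_range.1 this.1, this.2⟩
  have hlt : ∀ i < 2 * M, 2 * σ i + 1 < 4 * M * Q ^ Fintype.card ι := by
    intro i hi
    have := (hσ1 i hi).1
    have e : 4 * M * Q ^ Fintype.card ι = 2 * (2 * M * Q ^ Fintype.card ι) := by ring
    omega
  have hin : ∀ i < 2 * M, A + (2 * σ i + 1) * L < A + 4 * M * Q ^ Fintype.card ι * L := by
    intro i hi
    have := Nat.mul_lt_mul_of_pos_right (hlt i hi) hL
    omega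
  refine ⟨A, L, 4 * M * Q ^ Fintype.card ι, σ, hL, hσ, hlt, hle, hst, ?_⟩
  intro v i i' hi hi' γ hγ
  -- the linear form
  let lam : (Fin (w + 1) → F v) →ₗ[F v] F v :=
    { toFun := fun γ => ∑ t, (Φ v (A + (2 * σ i + 1) * L) t -
        Φ v (A + (2 * σ i' + 1) * L) t) * γ t
      map_add' := by
        intro x y
        simp only [Pi.add_apply, mul_add, Finset.sum_add_distrib]
      map_smul' := by
        intro r x
        simp only [Pi.smul_apply, smul_eq_mul, RingHom.id_apply, Finset.mul_sum]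
        refine Finset.sum_congr rfl fun t _ => ?_
        ring }
  have hker : Submodule.span (F v) (Set.range fun i => Gm (g v) j (ζ v i) (u v i)) ≤
      LinearMap.ker lam := by
    rw [Submodule.span_le]
    rintro _ ⟨e, rfl⟩
    rw [SetLike.mem_coe, LinearMap.mem_ker]
    show ∑ t, (Φ v (A + (2 * σ i + 1) * L) t - Φ v (A + (2 * σ i' + 1) * L) t) *
      Gm (g v) j (ζ v e) (u v e) t = 0
    have h1 := us_eq' (hT v) hj (hk v e) (hg v e (A + (2 * σ i + 1) * L) (by omega) (hin i hi))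
    have h2 := us_eq' (hT v) hj (hk v e)
      (hg v e (A + (2 * σ i' + 1) * L) (by omega) (hin i' hi'))
    have h3 : Us (fun x => a v (c v (univ.image x))) j (A + (2 * σ i + 1) * L) (ζ v e) (u v e) =
        Us (fun x => a v (c v (univ.image x))) j (A + (2 * σ i' + 1) * L) (ζ v e) (u v e) := by
      unfold Us
      refine Finset.sum_congr rfl fun β _ => ?_
      have h4 : typ (σ i) v e β = typ (σ i') v e β := by
        rw [(hσ1 i hi).2, (hσ1 i' hi').2]
      have h5 : c v (univ.image (j.insertNth (A + (2 * σ i + 1) * L)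
          (fun i' => ζ v e i' (β i')) : Fin (k + 1) → ℕ)) =
          c v (univ.image (j.insertNth (A + (2 * σ i' + 1) * L)
            (fun i' => ζ v e i' (β i')) : Fin (k + 1) → ℕ)) := h4
      beta_reduce
      rw [h5]
    rw [h1, h2] at h3
    simp only [sub_mul, Finset.sum_sub_distrib]
    rw [h3, sub_self]
  have h6 := hker (hsp v hγ)
  rw [LinearMap.mem_ker] at h6
  have h7 : ∑ t, (Φ v (A + (2 * σ i + 1) * L) t - Φ v (A + (2 * σ i' + 1) * L) t) * γ t = 0 := h6
  simp only [sub_mul, Finset.sum_sub_distrib] at h7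
  exact sub_eq_zero.1 h7

end Pool.Agent.Y424.SP
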